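import Pool.Agent.helper24.RB.Spec

/-!
# Row rb:PUH
-/

set_option autoImplicit false

namespace Pool.Agent.LE

open Pool.Agent.helper58.DC Pool.Agent.DI Pool.Agent.GR Pool.Agent.OB Pool.Agent.DR Pool.Agent.FI Pool.Agent.FI3 Pool.Agent.FI4 Pool.Agent.FI4C

open Classical in
theorem PUH_base {D : Type} [CommGroup D] [Finite D] (K S : Subgroup D) (h : K ≤ S) :
    LGC (fun u : D => if u ∈ S then (K.index : ℂ) else 0) := by
  have : Fintype (D →* ℂˣ) := Fintype.ofFinite _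
  refine ⟨fun l => if l ∈ ov S 1 then (K.relIndex S : ℤ) else 0, fun u => ?_⟩
  rw [finsum_eq_sum_of_fintype]
  have h1 : ∀ l : D →* ℂˣ, (((if l ∈ ov S 1 then (K.relIndex S : ℤ) else 0 : ℤ) : ℂ)) * lv l u =
      if l ∈ ov S 1 then (K.relIndex S : ℂ) * lv l u else 0 := by
    intro l
    split_ifs
    · push_cast
      rfl
    · push_cast
      rw [zero_mul]
  rw [Finset.sum_congr rfl fun l _ => h1 l, ← Finset.sum_filter, Finset.filter_mem_eq_inter,
    Finset.univ_inter, ← Finset.mul_sum]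
  show (if u ∈ S then (K.index : ℂ) else 0) = _
  by_cases hu : u ∈ S
  · rw [if_pos hu]
    have h2 : ∑ l ∈ ov S 1, lv l u = (S.index : ℂ) := by
      rw [← card_ov S 1, Finset.sum_congr rfl fun l hl => (mem_ov.1 hl u hu).trans (lv_hone u),
        Finset.sum_const, nsmul_eq_mul, mul_one]
    rw [h2, ← Subgroup.relIndex_mul_index h]
    push_cast
    rfl
  · rw [if_neg hu, sum_ov S 1 u hu, mul_zero]

open Classical in
theorem PUH_ind (hLCG : LCG_stmt) {D : Type} [CommGroup D] [Finite D] (K : Subgroup D) (N : ℕ) :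
    ∀ (H : Fin N → Subgroup D), (∀ i, K ≤ H i) → ∀ S : Subgroup D, K ≤ S →
      LGC (fun u : D => if u ∈ S ∧ ¬ ∃ i, u ∈ H i then (K.index : ℂ) else 0) := by
  induction N with
  | zero =>
    intro H _ S hS
    have h := PUH_base K S hS
    have h1 : (fun u : D => if u ∈ S ∧ ¬ ∃ i : Fin 0, u ∈ H i then (K.index : ℂ) else 0) =
        fun u : D => if u ∈ S then (K.index : ℂ) else 0 := by
      funext u
      simp
    rw [h1]
    exact h
  | succ N ih =>
    intro H hH S hS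
    have h1 := ih (fun i => H i.succ) (fun i => hH _) S hS
    have h2 := ih (fun i => H i.succ) (fun i => hH _) (S ⊓ H 0) (le_inf hS (hH 0))
    have h3 := (hLCG D).2.2.2.2.1 _ _ h1 h2
    have h4 : (fun u : D => if u ∈ S ∧ ¬ ∃ i, u ∈ H i then (K.index : ℂ) else 0) =
        fun u : D => (if u ∈ S ∧ ¬ ∃ i : Fin N, u ∈ H i.succ then (K.index : ℂ) else 0) -
          (if u ∈ S ⊓ H 0 ∧ ¬ ∃ i : Fin N, u ∈ H i.succ then (K.index : ℂ) else 0) := by
      funext u
      have a5 : (∃ i, u ∈ H i) ↔ (u ∈ H 0 ∨ ∃ i : Fin N, u ∈ H i.succ) := Fin.exists_fin_succ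
      have a6 : u ∈ S ⊓ H 0 ↔ u ∈ S ∧ u ∈ H 0 := Subgroup.mem_inf
      by_cases a1 : u ∈ S
      · by_cases a2 : u ∈ H 0
        · by_cases a3 : ∃ i : Fin N, u ∈ H i.succ
          · rw [if_neg fun h => h.2 (a5.2 (Or.inl a2)), if_neg fun h => h.2 a3, if_neg fun h => h.2 a3, sub_zero]
          · rw [if_neg fun h => h.2 (a5.2 (Or.inl a2)), if_pos ⟨a1, a3⟩, if_pos ⟨a6.2 ⟨a1, a2⟩, a3⟩, sub_self]
        · by_cases a3 : ∃ i : Fin N, u ∈ H i.succ
          · rw [if_neg fun h => h.2 (a5.2 (Or.inr a3)), if_neg fun h => h.2 a3, if_neg fun h => h.2 a3, sub_zero]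
          · rw [if_pos ⟨a1, fun h => (a5.1 h).elim a2 a3⟩, if_pos ⟨a1, a3⟩, if_neg fun h => a2 (a6.1 h.1).2, sub_zero]
      · rw [if_neg fun h => a1 h.1, if_neg fun h => a1 h.1, if_neg fun h => a1 (a6.1 h.1).1, sub_zero]
    rw [h4]
    exact h3

theorem PUH (hLCG : LCG_stmt) : PUH_stmt := by
  classical
  intro D _ _ K N H hH
  have h := PUH_ind hLCG K N H hH ⊤ le_top
  have h1 : ({u : D | ∃ i, u ∈ H i}ᶜ.indicator (fun _ => (K.index : ℂ))) =
      fun u : D => if u ∈ (⊤ : Subgroup D) ∧ ¬ ∃ i, u ∈ H i then (K.index : ℂ) else 0 := by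
    funext u
    by_cases a : ∃ i, u ∈ H i
    · have a' : u ∉ {u : D | ∃ i, u ∈ H i}ᶜ := fun hu => (Set.mem_compl_iff _ _).1 hu a
      rw [Set.indicator_of_notMem a', if_neg fun hu => hu.2 a]
    · rw [Set.indicator_of_mem (show u ∈ {u : D | ∃ i, u ∈ H i}ᶜ from a), if_pos ⟨Subgroup.mem_top u, a⟩]
  rw [h1]
  exact h

end Pool.Agent.LE
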